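import Pool.Agent.Lib.H70L.Def

/-!
# H8D, file Cl: the closure of a graph in the matroid of the sparse graphs (`2 k - 3`)
-/

set_option autoImplicit false

set_option linter.unusedSectionVars false

namespace H8D

open Finset H98P H98M H70L

variable {V : Type*} [Fintype V] [DecidableEq V]

/-- `X` is tight in `H`. -/
def Tight (H : Finset (Sym2 V)) (X : Finset V) : Prop := 2 ≤ X.card ∧ (H ∩ X.sym2).card + 3 = 2 * X.card

open Classical in
/-- The maximal tight sets. -/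
noncomputable def TT (H : Finset (Sym2 V)) : Finset (Finset V) :=
  univ.filter fun X => Tight H X ∧ ∀ Y, Tight H Y → X ⊆ Y → Y = X

theorem mem_TT {H : Finset (Sym2 V)} {X : Finset V} :
    X ∈ TT H ↔ Tight H X ∧ ∀ Y, Tight H Y → X ⊆ Y → Y = X := by
  simp [TT]

theorem tight_union {H : Finset (Sym2 V)} (hS : Sparse H) {X Y : Finset V} (hX : Tight H X) (hY : Tight H Y)
    (h2 : 2 ≤ (X ∩ Y).card) : Tight H (X ∪ Y) := by
  have h1 : (H ∩ X.sym2) ∩ (H ∩ Y.sym2) = H ∩ (X ∩ Y).sym2 := by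
    ext e
    simp only [mem_inter, mem_sym2_iff]
    constructor
    · rintro ⟨⟨h3, h4⟩, -, h5⟩
      exact ⟨h3, fun a ha => ⟨h4 a ha, h5 a ha⟩⟩
    · rintro ⟨h3, h4⟩
      exact ⟨⟨h3, fun a ha => (h4 a ha).1⟩, h3, fun a ha => (h4 a ha).2⟩
  have h3 : (H ∩ X.sym2) ∪ (H ∩ Y.sym2) ⊆ H ∩ (X ∪ Y).sym2 := by
    intro e he
    simp only [mem_union, mem_inter, mem_sym2_iff] at he ⊢
    rcases he with ⟨h4, h5⟩ | ⟨h4, h5⟩
    · exact ⟨h4, fun a ha => Or.inl (h5 a ha)⟩
    · exact ⟨h4, fun a ha => Or.inr (h5 a ha)⟩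
  have h4 := card_le_card h3
  have h5 := card_union_add_card_inter (H ∩ X.sym2) (H ∩ Y.sym2)
  rw [h1] at h5
  have h6 := card_union_add_card_inter X Y
  have h7 := hS (X ∩ Y) h2
  have h8 : X.card ≤ (X ∪ Y).card := card_le_card subset_union_left
  have h9 : 2 ≤ (X ∪ Y).card := hX.1.trans h8
  have h10 := hS (X ∪ Y) h9
  refine ⟨h9, ?_⟩
  have := hX.2
  have := hY.2
  omega

theorem edge_tight {H : Finset (Sym2 V)} (hS : Sparse H) {a b : V} (hab : a ≠ b) (h : s(a, b) ∈ H) :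
    Tight H {a, b} := by
  have h1 : ({a, b} : Finset V).card = 2 := card_pair hab
  have h2 := hS {a, b} h1.ge
  have h3 : s(a, b) ∈ H ∩ ({a, b} : Finset V).sym2 := by
    rw [mem_inter, mk_mem_sym2_iff]
    simp [h]
  have h4 : 0 < (H ∩ ({a, b} : Finset V).sym2).card := card_pos.2 ⟨_, h3⟩
  exact ⟨h1.ge, by omega⟩

theorem exists_TT {H : Finset (Sym2 V)} {X : Finset V} (hX : Tight H X) : ∃ Y ∈ TT H, X ⊆ Y := by
  obtain ⟨m, hm, hmax⟩ := (Set.toFinite {Y : Finset V | Tight H Y}).exists_le_maximal hX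
  exact ⟨m, mem_TT.2 ⟨hmax.1, fun Y hY h => (hmax.2 hY h).antisymm h⟩, hm⟩

theorem TT_inter {H : Finset (Sym2 V)} (hS : Sparse H) {X Y : Finset V} (hX : X ∈ TT H) (hY : Y ∈ TT H)
    (h2 : 2 ≤ (X ∩ Y).card) : X = Y := by
  rw [mem_TT] at hX hY
  have h := tight_union hS hX.1 hY.1 h2
  exact (hX.2 _ h subset_union_left).symm.trans (hY.2 _ h subset_union_right)

theorem exists_pair {G : Finset (Sym2 V)} (hG : G ⊆ LW univ) {e : Sym2 V} (he : e ∈ G) :
    ∃ a b, a ≠ b ∧ e = s(a, b) := by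
  induction e using Sym2.ind with
  | _ a b =>
    refine ⟨a, b, ?_, rfl⟩
    rintro rfl
    have h1 := hG he
    simp [LW] at h1

/-- The sum formula. -/
theorem cost_TT {H : Finset (Sym2 V)} (hH : H ⊆ LW univ) (hS : Sparse H) : cost (TT H) = H.card := by
  have h1 : H = (TT H).biUnion fun X => H ∩ X.sym2 := by
    ext e
    rw [mem_biUnion]
    constructor
    · intro he
      obtain ⟨a, b, hab, rfl⟩ := exists_pair hH he
      obtain ⟨Y, hY, h2⟩ := exists_TT (edge_tight hS hab he)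
      exact ⟨Y, hY, mem_inter.2 ⟨he, mk_mem_sym2_iff.2 ⟨h2 (by simp), h2 (by simp)⟩⟩⟩
    · rintro ⟨X, -, h⟩
      exact (mem_inter.1 h).1
  have h2 : ((TT H).biUnion fun X => H ∩ X.sym2).card = ∑ X ∈ TT H, (H ∩ X.sym2).card := by
    refine card_biUnion fun X hX Y hY hne => ?_
    change Disjoint (H ∩ X.sym2) (H ∩ Y.sym2)
    rw [disjoint_left]
    intro e he he'
    obtain ⟨a, b, hab, rfl⟩ := exists_pair hH (mem_inter.1 he).1
    have h3 := mk_mem_sym2_iff.1 (mem_inter.1 he).2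
    have h4 := mk_mem_sym2_iff.1 (mem_inter.1 he').2
    refine hne (TT_inter hS hX hY ?_)
    have h5 : ({a, b} : Finset V) ⊆ X ∩ Y := by
      intro t ht
      rw [mem_insert, mem_singleton] at ht
      rcases ht with rfl | rfl
      · exact mem_inter.2 ⟨h3.1, h4.1⟩
      · exact mem_inter.2 ⟨h3.2, h4.2⟩
    calc 2 = ({a, b} : Finset V).card := (card_pair hab).symm
      _ ≤ _ := card_le_card h5
  rw [← h1] at h2
  rw [h2]
  refine sum_congr rfl fun X hX => ?_
  have := (mem_TT.1 hX).1.2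
  omega

/-- A sparse subset of the graph of a family has at most as many edges as the cost of the family. -/
theorem card_le_cost {J : Finset (Sym2 V)} (hS : Sparse J) {F : Finset (Finset V)} (hF : ∀ X ∈ F, 2 ≤ X.card)
    (hJ : J ⊆ HG F) : J.card ≤ cost F := by
  have h1 : J ⊆ F.biUnion fun X => J ∩ X.sym2 := by
    intro e he
    have h2 := hJ he
    unfold HG at h2
    obtain ⟨-, X, hX, h3⟩ := mem_filter.1 h2
    exact mem_biUnion.2 ⟨X, hX, mem_inter.2 ⟨he, h3⟩⟩
  calc J.card ≤ (F.biUnion fun X => J ∩ X.sym2).card := card_le_card h1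
    _ ≤ ∑ X ∈ F, (J ∩ X.sym2).card := card_biUnion_le
    _ ≤ cost F := sum_le_sum fun X hX => by
      have := hS X (hF X hX)
      omega

theorem mem_HG {F : Finset (Finset V)} {e : Sym2 V} : e ∈ HG F ↔ e ∈ LW univ ∧ ∃ X ∈ F, e ∈ X.sym2 := by
  simp [HG]

theorem sym2_sub {X Y : Finset V} (h : X ⊆ Y) {e : Sym2 V} (he : e ∈ X.sym2) : e ∈ Y.sym2 := by
  rw [mem_sym2_iff] at he ⊢
  exact fun a ha => h (he a ha)

theorem out {I : Finset (Sym2 V)} (hS : Sparse I) {e : Sym2 V} (he : e ∈ LW univ) (h : e ∉ HG (TT I)) :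
    Sparse (insert e I) := by
  intro X hX
  by_contra hcon
  have h1 := hS X hX
  by_cases heX : e ∈ X.sym2
  · have h2 : (insert e I ∩ X.sym2).card ≤ (I ∩ X.sym2).card + 1 := by
      rw [insert_inter_of_mem heX]
      exact card_insert_le _ _
    have h3 : Tight I X := ⟨hX, by omega⟩
    obtain ⟨Y, hY, h4⟩ := exists_TT h3
    exact h (mem_HG.2 ⟨he, Y, hY, sym2_sub h4 heX⟩)
  · rw [insert_inter_of_notMem heX] at hcon
    exact hcon h1

theorem sub_HG {G I : Finset (Sym2 V)} (hG : G ⊆ LW univ) (hI : I ⊆ G) (hS : Sparse I)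
    (hmax : ∀ e ∈ G, Sparse (insert e I) → e ∈ I) : G ⊆ HG (TT I) := by
  intro e he
  by_contra h
  have h1 := hmax e he (out hS (hG he) h)
  obtain ⟨a, b, hab, rfl⟩ := exists_pair hG he
  obtain ⟨Y, hY, h2⟩ := exists_TT (edge_tight hS hab h1)
  exact h (mem_HG.2 ⟨hG he, Y, hY, mk_mem_sym2_iff.2 ⟨h2 (by simp), h2 (by simp)⟩⟩)

theorem sparse_empty : Sparse (∅ : Finset (Sym2 V)) := by
  intro X hX
  simp only [empty_inter, card_empty]
  omega

/-- A sparse set inside `G` extends to a largest sparse set among those inside `G` which contain it. -/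
theorem exists_ext {G I : Finset (Sym2 V)} (hI : I ⊆ G) (hS : Sparse I) :
    ∃ J, I ⊆ J ∧ J ⊆ G ∧ Sparse J ∧ ∀ e ∈ G, Sparse (insert e J) → e ∈ J := by
  classical
  have hne : (G.powerset.filter fun J => I ⊆ J ∧ Sparse J).Nonempty :=
    ⟨I, mem_filter.2 ⟨mem_powerset.2 hI, Subset.rfl, hS⟩⟩
  obtain ⟨J, hJ, hmax⟩ := exists_max_image _ card hne
  obtain ⟨h1, h2, h3⟩ := mem_filter.1 hJ
  refine ⟨J, h2, mem_powerset.1 h1, h3, fun e he h4 => ?_⟩
  by_contra h5
  have h6 := hmax (insert e J) (mem_filter.2 ⟨mem_powerset.2 (insert_subset he (mem_powerset.1 h1)),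
    h2.trans (subset_insert _ _), h4⟩)
  rw [card_insert_of_notMem h5] at h6
  omega

theorem TT_two {H : Finset (Sym2 V)} : ∀ X ∈ TT H, 2 ≤ X.card := fun X hX => (mem_TT.1 hX).1.1

/-- A maximal sparse subset is largest. -/
theorem max_card {G I J : Finset (Sym2 V)} (hG : G ⊆ LW univ) (hI : I ⊆ G) (hS : Sparse I)
    (hmax : ∀ e ∈ G, Sparse (insert e I) → e ∈ I) (hJ : Sparse J) (hJG : J ⊆ HG (TT I)) : J.card ≤ I.card := by
  rw [← cost_TT (hI.trans hG) hS]
  exact card_le_cost hJ TT_two hJG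

theorem tight_mono {I J : Finset (Sym2 V)} (h : I ⊆ J) (hJ : Sparse J) {X : Finset V} (hX : Tight I X) :
    Tight J X := by
  have h1 : (I ∩ X.sym2).card ≤ (J ∩ X.sym2).card := card_le_card (inter_subset_inter_right h)
  have h2 := hJ X hX.1
  have h3 := hX.2
  exact ⟨hX.1, by omega⟩

/-- THE CLOSURE. -/
theorem exists_closure : ∃ (cl : Finset (Sym2 V) → Finset (Finset V)) (r : Finset (Sym2 V) → ℕ),
    (∀ G, G ⊆ LW univ → (∀ X ∈ cl G, 2 ≤ X.card) ∧ G ⊆ HG (cl G) ∧ cost (cl G) = r G ∧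
      ∃ H, H ⊆ G ∧ Sparse H ∧ H.card = r G) ∧
    (∀ G G', G ⊆ G' → G' ⊆ LW univ → HG (cl G) ⊆ HG (cl G') ∧ (HG (cl G) = HG (cl G') ∨ r G < r G')) := by
  have hex : ∀ G : Finset (Sym2 V), ∃ I, I ⊆ G ∧ Sparse I ∧ ∀ e ∈ G, Sparse (insert e I) → e ∈ I := by
    intro G
    obtain ⟨J, -, h1, h2, h3⟩ := exists_ext (empty_subset G) sparse_empty
    exact ⟨J, h1, h2, h3⟩
  choose I hI hS hmax using hex
  have hGH : ∀ G, G ⊆ LW univ → G ⊆ HG (TT (I G)) := fun G hG => sub_HG hG (hI G) (hS G) (hmax G)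
  -- the key step
  have key : ∀ (G : Finset (Sym2 V)) (J : Finset (Sym2 V)) (e : Sym2 V), G ⊆ LW univ → J ⊆ G → Sparse J →
      (∀ f ∈ G, Sparse (insert f J) → f ∈ J) → e ∈ HG (TT J) → e ∈ HG (TT (I G)) := by
    intro G J e hG hJ hJS hJmax he
    by_contra h
    have heL := (mem_HG.1 he).1
    have h1 := out (hS G) heL h
    have h2 : e ∉ I G := fun h3 => h (hGH G hG (hI G h3))
    have h3 : insert e (I G) ⊆ HG (TT J) :=
      insert_subset he ((hI G).trans (sub_HG hG hJ hJS hJmax))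
    have h4 := max_card hG hJ hJS hJmax h1 h3
    rw [card_insert_of_notMem h2] at h4
    have h5 := max_card hG (hI G) (hS G) (hmax G) hJS (hJ.trans (hGH G hG))
    omega
  refine ⟨fun G => TT (I G), fun G => (I G).card, fun G hG => ⟨TT_two, hGH G hG,
    cost_TT ((hI G).trans hG) (hS G), I G, hI G, hS G, rfl⟩, fun G G' hGG hG' => ?_⟩
  have hG := hGG.trans hG'
  have hsub : HG (TT (I G)) ⊆ HG (TT (I G')) := by
    intro e he
    obtain ⟨J, h1, h2, h3, h4⟩ := exists_ext ((hI G).trans hGG) (hS G)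
    refine key G' J e hG' h2 h3 h4 ?_
    obtain ⟨heL, X, hX, heX⟩ := mem_HG.1 he
    obtain ⟨Y, hY, hXY⟩ := exists_TT (tight_mono h1 h3 (mem_TT.1 hX).1)
    exact mem_HG.2 ⟨heL, Y, hY, sym2_sub hXY heX⟩
  refine ⟨hsub, ?_⟩
  have hle : (I G).card ≤ (I G').card :=
    max_card hG' (hI G') (hS G') (hmax G') (hS G) (((hI G).trans hGG).trans (hGH G' hG'))
  rcases Nat.lt_or_ge (I G).card (I G').card with h1 | h1
  · exact Or.inr h1
  · left
    refine hsub.antisymm fun e he => ?_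
    -- `I G` is maximal in `G'`
    have hmax' : ∀ f ∈ G', Sparse (insert f (I G)) → f ∈ I G := by
      intro f hf h2
      by_contra h3
      have h4 := max_card hG' (hI G') (hS G') (hmax G') h2
        (insert_subset (hGH G' hG' hf) (((hI G).trans hGG).trans (hGH G' hG')))
      rw [card_insert_of_notMem h3] at h4
      omega
    by_contra h
    have heL := (mem_HG.1 he).1
    have h5 := out (hS G) heL h
    have h6 : e ∉ I G := fun h7 => h (hGH G hG (hI G h7))
    have h7 := max_card hG' (hI G') (hS G') (hmax G') h5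
      (insert_subset he (((hI G).trans hGG).trans (hGH G' hG')))
    rw [card_insert_of_notMem h6] at h7
    omega

end H8D
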