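import Pool.Agent.Lib.H8D.Cl

/-!
# H8D, file Cor: consequences of sparseness with `2n - 3` edges

Such a graph is 2-connected, and every partition of the vertices into `p` parts is crossed by at least `2 p - 3` edges.
-/

set_option autoImplicit false

set_option linter.unusedSectionVars false

namespace H8D

open Finset H98P H98M H70L

variable {V : Type*} [Fintype V] [DecidableEq V]

theorem one_set {H : Finset (Sym2 V)} (hH : H ⊆ LW univ) (hS : Sparse H) {X : Finset V} (hX : X.Nonempty) :
    (H ∩ X.sym2).card + 2 ≤ 2 * X.card := by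
  have h0 := hX.card_pos
  rcases Nat.lt_or_ge X.card 2 with h1 | h1
  · obtain ⟨a, rfl⟩ := card_eq_one.1 (by omega : X.card = 1)
    have h2 : H ∩ ({a} : Finset V).sym2 = ∅ := by
      rw [eq_empty_iff_forall_notMem]
      intro e he
      obtain ⟨x, y, hxy, rfl⟩ := exists_pair hH (mem_inter.1 he).1
      have h3 := mk_mem_sym2_iff.1 (mem_inter.1 he).2
      rw [mem_singleton, mem_singleton] at h3
      exact hxy (h3.1.trans h3.2.symm)
    rw [h2]
    simp
  · have := hS X h1
    omega

/-- Every partition of the vertices into `p` parts is crossed by at least `2 p - 3` edges. -/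
theorem cross_parts {H : Finset (Sym2 V)} (hH : H ⊆ LW univ) (hS : Sparse H)
    (hc : H.card + 3 = 2 * Fintype.card V) {ι : Type*} [Fintype ι] [DecidableEq ι] (f : V → ι)
    (hf : Function.Surjective f) : 2 * Fintype.card ι ≤ (H.filter fun e => ¬ (e.map f).IsDiag).card + 3 := by
  have h1 : H.filter (fun e => (e.map f).IsDiag) ⊆ (univ : Finset ι).biUnion fun i =>
      H ∩ (univ.filter fun v => f v = i).sym2 := by
    intro e he
    obtain ⟨he1, he2⟩ := mem_filter.1 he
    obtain ⟨a, b, hab, rfl⟩ := exists_pair hH he1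
    rw [Sym2.map_mk, Sym2.mk_isDiag_iff] at he2
    refine mem_biUnion.2 ⟨f a, mem_univ _, mem_inter.2 ⟨he1, mk_mem_sym2_iff.2 ⟨?_, ?_⟩⟩⟩
    · simp
    · simp [he2.symm]
  have h2 := (card_le_card h1).trans card_biUnion_le
  have h3 : ∑ i : ι, ((H ∩ (univ.filter fun v => f v = i).sym2).card + 2) ≤
      ∑ i : ι, 2 * (univ.filter fun v => f v = i).card := by
    refine sum_le_sum fun i _ => one_set hH hS ?_
    obtain ⟨v, hv⟩ := hf i
    exact ⟨v, by simp [hv]⟩
  rw [sum_add_distrib, ← mul_sum, sum_const, card_univ, smul_eq_mul] at h3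
  have h4 : ∑ i : ι, (univ.filter fun v => f v = i).card = Fintype.card V := by
    rw [← card_univ (α := V)]
    exact (card_eq_sum_card_fiberwise (f := f) (s := univ) (t := univ) fun v _ => mem_univ _).symm
  rw [h4] at h3
  have h5 := card_filter_add_card_filter_not (s := H) (fun e => (e.map f).IsDiag)
  omega

theorem conn {H : Finset (Sym2 V)} (hH : H ⊆ LW univ) (hS : Sparse H)
    (hc : H.card + 3 = 2 * Fintype.card V) : ¬ Disc univ H := by
  rintro ⟨C, D, hC, hD, hCD, hU, hno⟩
  have h1 : H ⊆ (H ∩ C.sym2) ∪ (H ∩ D.sym2) := by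
    intro e he
    obtain ⟨a, b, hab, rfl⟩ := exists_pair hH he
    have ha : a ∈ C ∪ D := hU ▸ mem_univ a
    have hb : b ∈ C ∪ D := hU ▸ mem_univ b
    rw [mem_union] at ha hb
    rw [mem_union, mem_inter, mem_inter, mk_mem_sym2_iff, mk_mem_sym2_iff]
    rcases ha with ha | ha <;> rcases hb with hb | hb
    · exact Or.inl ⟨he, ha, hb⟩
    · exact absurd he (hno a ha b hb)
    · exact absurd (by rwa [Sym2.eq_swap] at he) (hno b hb a ha)
    · exact Or.inr ⟨he, ha, hb⟩
  have h2 := (card_le_card h1).trans (card_union_le _ _)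
  have h3 := one_set hH hS hC
  have h4 := one_set hH hS hD
  have h5 : C.card + D.card = Fintype.card V := by
    rw [← card_union_of_disjoint hCD, hU, card_univ]
  omega

theorem no_cut {H : Finset (Sym2 V)} (hH : H ⊆ LW univ) (hS : Sparse H)
    (hc : H.card + 3 = 2 * Fintype.card V) (z : V) : ¬ Disc (univ.erase z) H := by
  rintro ⟨C, D, hC, hD, hCD, hU, hno⟩
  have hzC : z ∉ C := fun h => absurd (hU ▸ mem_union_left D h : z ∈ univ.erase z) (notMem_erase z _)
  have hzD : z ∉ D := fun h => absurd (hU ▸ mem_union_right C h : z ∈ univ.erase z) (notMem_erase z _)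
  have hmem : ∀ a, a ≠ z → a ∈ C ∨ a ∈ D := by
    intro a ha
    rw [← mem_union, hU]
    exact mem_erase.2 ⟨ha, mem_univ a⟩
  have h1 : H ⊆ (H ∩ (insert z C).sym2) ∪ (H ∩ (insert z D).sym2) := by
    intro e he
    obtain ⟨a, b, hab, rfl⟩ := exists_pair hH he
    rw [mem_union, mem_inter, mem_inter, mk_mem_sym2_iff, mk_mem_sym2_iff]
    simp only [mem_insert]
    by_cases ha : a = z
    · have hb : b ≠ z := fun e => hab (ha.trans e.symm)
      rcases hmem b hb with h | h
      · exact Or.inl ⟨he, Or.inl ha, Or.inr h⟩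
      · exact Or.inr ⟨he, Or.inl ha, Or.inr h⟩
    · by_cases hb : b = z
      · rcases hmem a ha with h | h
        · exact Or.inl ⟨he, Or.inr h, Or.inl hb⟩
        · exact Or.inr ⟨he, Or.inr h, Or.inl hb⟩
      · rcases hmem a ha with ha' | ha' <;> rcases hmem b hb with hb' | hb'
        · exact Or.inl ⟨he, Or.inr ha', Or.inr hb'⟩
        · exact absurd he (hno a ha' b hb')
        · exact absurd (by rwa [Sym2.eq_swap] at he) (hno b hb' a ha')
        · exact Or.inr ⟨he, Or.inr ha', Or.inr hb'⟩
  have h2 := (card_le_card h1).trans (card_union_le _ _)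
  have hC' := hC.card_pos
  have hD' := hD.card_pos
  have h3 := hS (insert z C) (by rw [card_insert_of_notMem hzC]; omega)
  have h4 := hS (insert z D) (by rw [card_insert_of_notMem hzD]; omega)
  rw [card_insert_of_notMem hzC] at h3
  rw [card_insert_of_notMem hzD] at h4
  have h5 : C.card + D.card = Fintype.card V - 1 := by
    rw [← card_union_of_disjoint hCD, hU, card_erase_of_mem (mem_univ z), card_univ]
  omega

end H8D
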