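import Pool.Agent.Lib.H8D.Cor
import Pool.Agent.Lib.H85TF.DrawX

/-!
# H8D, file Draw: plane sparse edge sets with `2n - 3` edges in the language of simple drawings
-/

set_option autoImplicit false

set_option linter.unusedSectionVars false

open H53P SimpleDraw

namespace H8D

open Finset H98P H98Z H98M H63F H30F H63L H97W H70L

/-- A plane sparse set of `2n - 3` edges as a subdrawing. -/
theorem drawL {n : ℕ} (hn : 2 ≤ n) (D : SimpleDrawing n) {H : Finset (Sym2 (Fin n))} (hHL : H ⊆ LW univ)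
    (hHP : Plane (H53P.crossT (H53P.table D)) H) (hS : Sparse H) (hc : H.card + 3 = 2 * n) :
    ∃ G : SimpleGraph (Fin n), D.Plane G ∧ G.edgeSet.ncard = 2 * n - 3 ∧
      (∀ S : Finset (Fin n), 2 ≤ S.card → {e | e ∈ G.edgeSet ∧ ∀ v ∈ e, v ∈ S}.ncard + 3 ≤ 2 * S.card) ∧
      G.Connected ∧ (∀ v, (G.induce {w | w ≠ v}).Connected) ∧
      ∀ (p : ℕ) (f : Fin n → Fin p), Function.Surjective f →
        2 * p ≤ {e | e ∈ G.edgeSet ∧ ¬ (e.map f).IsDiag}.ncard + 3 := by
  have hdiag := H85TF.not_diag_of_LW hHL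
  have hc' : H.card + 3 = 2 * Fintype.card (Fin n) := by rw [Fintype.card_fin]; exact hc
  have hE : (gr H).edgeSet = (H : Set (Sym2 (Fin n))) := H85TF.gr_edgeSet hdiag
  refine ⟨gr H, plane_of D hHP, ?_, fun S hS2 => ?_, ?_, fun v => ?_, fun p f hf => ?_⟩
  · rw [hE, Set.ncard_coe_finset]
    omega
  · have h1 : {e | e ∈ (gr H).edgeSet ∧ ∀ v ∈ e, v ∈ S} = ((H ∩ S.sym2 : Finset (Sym2 (Fin n))) : Set (Sym2 (Fin n))) := by
      ext e
      rw [hE]
      simp only [Set.mem_setOf_eq, mem_coe, mem_inter, mem_sym2_iff]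
    rw [h1, Set.ncard_coe_finset]
    exact hS S hS2
  · have h6 := H98TF.induce_connected ⟨⟨0, by omega⟩, mem_univ _⟩ (conn hHL hS hc')
    have h7 : {v : Fin n | v ∈ (univ : Finset (Fin n))} = Set.univ := by
      ext v
      simp
    rw [h7] at h6
    exact (SimpleGraph.induceUnivIso (gr H)).connected_iff.1 h6
  · have h6 : (univ.erase v).Nonempty := by
      rw [← card_pos, card_erase_of_mem (mem_univ _), card_univ, Fintype.card_fin]
      omega
    have h7 := H98TF.induce_connected h6 (no_cut hHL hS hc' v)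
    have h8 : {w : Fin n | w ∈ univ.erase v} = {w | w ≠ v} := by
      ext w
      simp
    rw [h8] at h7
    exact h7
  · have h1 : {e | e ∈ (gr H).edgeSet ∧ ¬ (e.map f).IsDiag} =
        ((H.filter fun e => ¬ (e.map f).IsDiag : Finset (Sym2 (Fin n))) : Set (Sym2 (Fin n))) := by
      ext e
      rw [hE]
      simp only [Set.mem_setOf_eq, mem_coe, mem_filter]
    rw [h1, Set.ncard_coe_finset]
    have h2 := cross_parts hHL hS hc' f hf
    rwa [Fintype.card_fin] at h2

end H8D
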